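import Pool.Agent.Helper5.LCU.Real

set_option autoImplicit false

open Finset Pool.Agent.Helper89.UB

namespace Pool.Agent.Helper5.LCU

/-- if any three vertices of `S` contain an edge then there are only real zeros
(Heilmann-Lieb: `pn E S (card S - k)` is the number of matchings with `k` edges of the graph of the
pairs without edges) -/
def ST_HL : Prop := ∀ (n : ℕ) (E : Finset (Finset (Fin n))) (S : Finset (Fin n)),
  (∀ X ⊆ S, X.card = 3 → ∃ e ∈ E, e ⊆ X) → (PG E S).Splits

/-- smallest class of (induced sub)hypergraphs that contains the complete `r`-uniform hypergraphs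
(`r ≥ 3`), those in which any three vertices contain an edge, those whose generating polynomial has
only real zeros and the good ones and is closed under joins and gluing along cliques -/
inductive BuiltP {n : ℕ} (E : Finset (Finset (Fin n))) : Finset (Fin n) → Prop
  | uniform (S : Finset (Fin n)) (r : ℕ) : S.Nonempty → 3 ≤ r →
      (∀ X ⊆ S, (∃ e ∈ E, e ⊆ X) ↔ r ≤ X.card) → BuiltP E S
  | pairs (S : Finset (Fin n)) : (∀ X ⊆ S, X.card = 3 → ∃ e ∈ E, e ⊆ X) → BuiltP E S
  | real (S : Finset (Fin n)) : (PG E S).Splits → BuiltP E S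
  | good (S : Finset (Fin n)) : Good E S → BuiltP E S
  | join (A B : Finset (Fin n)) : Disjoint A B →
      (∀ a ∈ A, ∀ b ∈ B, ({a, b} : Finset (Fin n)) ∈ E) →
      BuiltP E A → BuiltP E B → BuiltP E (A ∪ B)
  | glue (A B : Finset (Fin n)) : Clique E (A ∩ B) →
      (∀ e ∈ E, e ⊆ A ∪ B → e ⊆ A ∨ e ⊆ B) →
      BuiltP E A → BuiltP E B → BuiltP E (A ∪ B)

end Pool.Agent.Helper5.LCU
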