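import Pool.Agent.Helper5.LCU.MAIN
import Pool.Agent.Helper1.LCU.MG
import Pool.Agent.Helper12.LCU.GL
import Pool.Agent.Helper16.LCU.GD
import Pool.Agent.Helper16.LCU.TP
import Pool.Agent.Helper16.LCU.REV
import Pool.Agent.Helper19.LCU.MAJ
import Pool.Agent.Helper20.LCU.Small
import Pool.Agent.Helper25.LCU.BC
import Pool.Agent.Helper26.LCU.GF
import Pool.Agent.Helper26.LCU.TPR
import Pool.Agent.Helper33.LCU.VR
import Pool.Agent.Helper39.LCU.GP
import Pool.Agent.Helper4.LCU.CNV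
import Pool.Agent.Helper40.LCU.K2
import Pool.Agent.Helper40.LCU.UF2
import Pool.Agent.Helper43.LCU.MJ
import Pool.Agent.Helper46.LCU.K1
import Pool.Agent.Helper46.LCU.PLC
import Pool.Agent.Helper48.LCU.MU
import Pool.Agent.Helper48.LCU.UF3
import Pool.Agent.Helper52.LCU.COR
import Pool.Agent.Helper53.LCU.SUP
import Pool.Agent.Helper55.LCU.LNS
import Pool.Agent.Helper58.LCU.ZB
import Pool.Agent.Helper74.LCU.LOW
import Pool.Agent.Helper75.LCU.UF1
import Pool.Agent.Helper79.LCU.SH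
import Pool.Agent.Helper80.LCU.MG1
import Pool.Agent.Helper83.LCU.FIN
import Pool.Agent.Helper84.LCU.CB
import Pool.Agent.Helper87.LCU.JN
import Pool.Agent.Helper88.LCU.K3
import Pool.Agent.Helper91.LCU.UFC
import Pool.Agent.Helper93.LCU.GL0
import Pool.Agent.Helper95.LCU.NIZ
import Pool.Agent.Helper99.LCU.LCZ

set_option autoImplicit false

namespace Pool.Agent.Helper5.LCU

theorem all_COR : ST_COR := st_COR st_CB Helper19.LCU.st_MAJ
theorem all_CNV : ST_CNV := Helper4.LCU.st_CNV st_CB Helper19.LCU.st_MAJ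
theorem all_REV : ST_REV := st_REV Helper19.LCU.st_MAJ
theorem all_BC : ST_BC := Helper25.LCU.st_BC st_CB Helper99.LCU.st_LCZ st_NIZ all_COR
  Helper20.LCU.st_CHS Helper20.LCU.st_MUL all_REV
theorem all_K1 : ST_K1 := st_K1 Helper26.LCU.st_GF all_COR all_BC Helper20.LCU.st_CHS
  Helper20.LCU.st_MUL all_REV
theorem all_K2 : ST_K2 := Helper40.LCU.st_K2 st_CB
theorem all_K3 : ST_K3 := st_K3 Helper26.LCU.st_GF all_K2 st_CB
theorem all_SUP : ST_SUP := Helper53.LCU.st_SUP Helper39.LCU.st_GP st_NIZ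
theorem all_PNZ : ST_PNZ := Helper53.LCU.st_PNZ Helper39.LCU.st_GP st_NIZ
theorem all_PLC : ST_PLC := st_PLC all_K1 all_K3 Helper20.LCU.st_GSW all_SUP
theorem all_PR : ST_PR := Helper20.LCU.st_PR all_PLC all_PNZ Helper99.LCU.st_LCZ
  Helper39.LCU.st_GP
theorem all_GL : ST_GL := st_GL Helper93.LCU.st_GL0 Helper33.LCU.st_VR
theorem all_GD : ST_GD := st_GD Helper55.LCU.st_LNS
theorem all_UFC : ST_UFC := Helper91.LCU.st_UFC all_CNV
theorem all_UF2 : ST_UF2 := Helper40.LCU.st_UF2 all_UFC Helper99.LCU.st_LCZ Helper19.LCU.st_MAJ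
theorem all_MU : ST_MU := st_MU all_GD st_UF1 all_UF2 st_UF3
theorem all_JN : ST_JN := st_JN Pool.Agent.Helper89.UB.st_SURC
theorem all_MJ : ST_MJ := Helper43.LCU.st_MJ all_GD all_JN Helper58.LCU.st_ZB all_BC
theorem all_MG1 : ST_MG1 := Helper80.LCU.st_MG1 st_TP all_GL Helper79.LCU.st_SH
  Helper26.LCU.st_TPR Helper20.LCU.st_TUN Helper20.LCU.st_TSH Helper74.LCU.st_LOW all_COR all_PR
theorem all_MG : ST_MG := Helper1.LCU.st_MG all_GD all_MG1 Helper58.LCU.st_ZB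
theorem all_FIN : ST_FIN := Helper83.LCU.st_FIN Helper55.LCU.st_LNS Helper58.LCU.st_ZB
theorem all_MAIN : ST_MAIN := st_MAIN all_MU all_MJ all_MG all_FIN Helper58.LCU.st_ZB
  Helper55.LCU.st_LNS

end Pool.Agent.Helper5.LCU
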