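import Pool.Agent.Helper5.LCU.MAIN2
import Pool.Agent.Helper49.LCU.RR1
import Pool.Agent.Helper88.LCU.RR2

set_option autoImplicit false

namespace Pool.Agent.Helper5.LCU

theorem all_RR1 : ST_RR1 := st_RR1 all_BC
theorem all_RR2 : ST_RR2 := st_RR2 Helper55.LCU.st_LNS Helper58.LCU.st_ZB all_RR1
theorem all_MAIN2 : ST_MAIN2 := st_MAIN2 all_RR2

end Pool.Agent.Helper5.LCU
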