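import Pool.Agent.Helper5.LCU.MAIN3
import Pool.Agent.Helper38.LCU.HL

set_option autoImplicit false

namespace Pool.Agent.Helper5.LCU

theorem all_MAIN3 : ST_MAIN3 := st_MAIN3 Pool.Agent.Helper38.LCU.st_HL

end Pool.Agent.Helper5.LCU
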