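import Pool.Agent.Helper89.UB.Defs

set_option autoImplicit false

open Finset Pool.Agent.Helper89.UB

namespace Pool.Agent.Helper5.LCU

/-- nonnegative, log-concave, no internal zeros -/
def SLC (a : ℕ → ℝ) : Prop :=
  (∀ i, 0 ≤ a i) ∧ ∀ i j, i ≤ j → a i * a (j + 2) ≤ a (i + 1) * a (j + 1)

/-- the arrays of the product lemma -/
def GA (a b : ℕ → ℝ) : ℕ → ℕ → ℕ → ℝ
  | 0, p, q => a p * b q
  | n + 1, p, q => GA a b n (p + 1) q + GA a b n p (q + 1) + GA a b n (p + 1) (q + 1)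

/-- the polynomial with coefficients `a` in the basis of binomial coefficients, at `q` -/
noncomputable def TT (a : ℕ → ℝ) (q : ℕ) : ℝ := ∑ m ∈ range (q + 1), (q.choose m : ℝ) * a m

/-- binomial convolution -/
noncomputable def BC (a b : ℕ → ℝ) (m : ℕ) : ℝ :=
  ∑ i ∈ range (m + 1), (m.choose i : ℝ) * a i * b (m - i)

/-- number of partitions of `S` into `m` nonempty blocks without edges -/
noncomputable def pn {n : ℕ} (E : Finset (Finset (Fin n))) (S : Finset (Fin n)) (m : ℕ) : ℕ :=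
  Set.ncard {P : Finset (Finset (Fin n)) |
    P.card = m ∧
    (∀ B ∈ P, B.Nonempty) ∧
    (∀ B ∈ P, ∀ C ∈ P, B ≠ C → Disjoint B C) ∧
    (∀ v : Fin n, v ∈ S ↔ ∃ B ∈ P, v ∈ B) ∧
    (∀ B ∈ P, ∀ e ∈ E, ¬ e ⊆ B)}

/-- all pairs of `K` are edges -/
def Clique {n : ℕ} (E : Finset (Finset (Fin n))) (K : Finset (Fin n)) : Prop :=
  ∀ u ∈ K, ∀ v ∈ K, u ≠ v → ({u, v} : Finset (Fin n)) ∈ E

/-- `w` is the clique number of `S` and `j! b_(w+j)` is log-concave without internal zeros -/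
def Good {n : ℕ} (E : Finset (Finset (Fin n))) (S : Finset (Fin n)) : Prop :=
  ∃ w : ℕ, (∃ K ⊆ S, Clique E K ∧ K.card = w) ∧ (∀ K ⊆ S, Clique E K → K.card ≤ w) ∧
    ∀ i j : ℕ, i ≤ j →
      (i.factorial * pn E S (w + i)) * ((j + 2).factorial * pn E S (w + (j + 2))) ≤
        ((i + 1).factorial * pn E S (w + (i + 1))) * ((j + 1).factorial * pn E S (w + (j + 1)))

/-- smallest class of (induced sub)hypergraphs that contains the complete `r`-uniform hypergraphs
(`r ≥ 3`) and the good ones and is closed under joins and gluing along cliques -/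
inductive Built {n : ℕ} (E : Finset (Finset (Fin n))) : Finset (Fin n) → Prop
  | uniform (S : Finset (Fin n)) (r : ℕ) : S.Nonempty → 3 ≤ r →
      (∀ X ⊆ S, (∃ e ∈ E, e ⊆ X) ↔ r ≤ X.card) → Built E S
  | good (S : Finset (Fin n)) : Good E S → Built E S
  | join (A B : Finset (Fin n)) : Disjoint A B →
      (∀ a ∈ A, ∀ b ∈ B, ({a, b} : Finset (Fin n)) ∈ E) →
      Built E A → Built E B → Built E (A ∪ B)
  | glue (A B : Finset (Fin n)) : Clique E (A ∩ B) →
      (∀ e ∈ E, e ⊆ A ∪ B → e ⊆ A ∨ e ⊆ B) →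
      Built E A → Built E B → Built E (A ∪ B)

/-- normalised sequence at level `w` -/
noncomputable def sq {n : ℕ} (E : Finset (Finset (Fin n))) (S : Finset (Fin n)) (w j : ℕ) : ℝ :=
  (j.factorial : ℝ) * (sur E S (w + j) : ℝ) / ((w + j).factorial : ℝ)

/-- exponential generating polynomial of the sets of size `1, ..., r - 1` -/
noncomputable def FR (r : ℕ) : Polynomial ℝ :=
  ∑ i ∈ Ico 1 r, Polynomial.monomial i (1 / (i.factorial : ℝ))

end Pool.Agent.Helper5.LCU
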