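import Pool.Agent.Helper5.LCU.Stmts

set_option autoImplicit false

open Finset Pool.Agent.Helper89.UB

namespace Pool.Agent.Helper5.LCU

theorem built_good {n : ℕ} (E : Finset (Finset (Fin n))) (h0 : Al E ∅)
    (hMU : ST_MU) (hMJ : ST_MJ) (hMG : ST_MG) (S : Finset (Fin n)) (h : Built E S) :
    Good E S := by
  induction h with
  | uniform S r hS hr hX => exact hMU n E S r hS hr hX
  | good S hS => exact hS
  | join A B hd hE _ _ ihA ihB => exact hMJ n E A B hd hE ihA ihB
  | glue A B hK hE _ _ ihA ihB => exact hMG n E A B h0 hK hE ihA ihB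

theorem pn_univ {n : ℕ} (E : Finset (Finset (Fin n))) (m : ℕ) :
    pn E univ m = Set.ncard {P : Finset (Finset (Fin n)) |
      P.card = m ∧
      (∀ B ∈ P, B.Nonempty) ∧
      (∀ B ∈ P, ∀ C ∈ P, B ≠ C → Disjoint B C) ∧
      (∀ v : Fin n, ∃ B ∈ P, v ∈ B) ∧
      (∀ B ∈ P, ∀ e ∈ E, ¬ e ⊆ B)} := by
  unfold pn
  congr 1
  ext P
  simp

theorem st_MAIN (hMU : ST_MU) (hMJ : ST_MJ) (hMG : ST_MG) (hFIN : ST_FIN) (hZB : ST_ZB)
    (hLNS : ST_LNS) : ST_MAIN := by
  intro n E b hE hb hB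
  have h0 : Al E ∅ := by
    intro e he hs
    exact (hE e he).ne_empty (Finset.subset_empty.1 hs)
  have hbp : ∀ m, b m = pn E univ m := fun m => by rw [hb m, pn_univ]
  have hG := built_good E h0 hMU hMJ hMG univ hB
  refine ⟨?_, ?_⟩
  · obtain ⟨w, ⟨K, _, hK, hKw⟩, hmax, hlc⟩ := hG
    refine ⟨w, ⟨K, hK, hKw⟩, fun K' hK' => hmax K' (subset_univ K') hK', ?_, ?_⟩
    · intro m hm
      have h1 := hZB n E univ K (subset_univ K) hK m (by omega)
      have h2 := hLNS n E univ m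
      rw [h1] at h2
      rw [hbp m]
      rcases Nat.mul_eq_zero.1 h2 with h3 | h3
      · exact h3
      · exact absurd h3 (Nat.factorial_ne_zero m)
    · intro i j hij
      simp only [hbp]
      exact hlc i j hij
  · simp only [hbp]
    exact hFIN n E hG

end Pool.Agent.Helper5.LCU
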