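import Pool.Agent.Helper5.LCU.Stmts

set_option autoImplicit false

open Finset Pool.Agent.Helper89.UB

namespace Pool.Agent.Helper5.LCU

/-- generating polynomial of the numbers of partitions of `S` -/
noncomputable def PG {n : ℕ} (E : Finset (Finset (Fin n))) (S : Finset (Fin n)) : Polynomial ℝ :=
  ∑ m ∈ range (n + 1), Polynomial.monomial m (pn E S m : ℝ)

/-- only real zeros and nonnegative coefficients -/
def ST_RR1 : Prop := ∀ f : Polynomial ℝ, f.Splits → (∀ i, 0 ≤ f.coeff i) →
  SLC (fun j => (j.factorial : ℝ) * f.coeff j)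

/-- hypergraphs with only real zeros are good -/
def ST_RR2 : Prop := ∀ (n : ℕ) (E : Finset (Finset (Fin n))) (S : Finset (Fin n)),
  (PG E S).Splits → Good E S

/-- smallest class of (induced sub)hypergraphs that contains the complete `r`-uniform hypergraphs
(`r ≥ 3`), those whose generating polynomial has only real zeros and the good ones and is closed
under joins and gluing along cliques -/
inductive BuiltR {n : ℕ} (E : Finset (Finset (Fin n))) : Finset (Fin n) → Prop
  | uniform (S : Finset (Fin n)) (r : ℕ) : S.Nonempty → 3 ≤ r →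
      (∀ X ⊆ S, (∃ e ∈ E, e ⊆ X) ↔ r ≤ X.card) → BuiltR E S
  | real (S : Finset (Fin n)) : (PG E S).Splits → BuiltR E S
  | good (S : Finset (Fin n)) : Good E S → BuiltR E S
  | join (A B : Finset (Fin n)) : Disjoint A B →
      (∀ a ∈ A, ∀ b ∈ B, ({a, b} : Finset (Fin n)) ∈ E) →
      BuiltR E A → BuiltR E B → BuiltR E (A ∪ B)
  | glue (A B : Finset (Fin n)) : Clique E (A ∩ B) →
      (∀ e ∈ E, e ⊆ A ∪ B → e ⊆ A ∨ e ⊆ B) →
      BuiltR E A → BuiltR E B → BuiltR E (A ∪ B)

end Pool.Agent.Helper5.LCU
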