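import Pool.Agent.Helper5.LCU.All
import Pool.Agent.Helper5.LCU.Real

set_option autoImplicit false

open Finset Pool.Agent.Helper89.UB

namespace Pool.Agent.Helper5.LCU

theorem builtR_built {n : ℕ} (E : Finset (Finset (Fin n))) (hRR : ST_RR2) (S : Finset (Fin n))
    (h : BuiltR E S) : Built E S := by
  induction h with
  | uniform S r hS hr hX => exact Built.uniform S r hS hr hX
  | real S hS => exact Built.good S (hRR n E S hS)
  | good S hS => exact Built.good S hS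
  | join A B hd hE _ _ ihA ihB => exact Built.join A B hd hE ihA ihB
  | glue A B hK hE _ _ ihA ihB => exact Built.glue A B hK hE ihA ihB

/-- main theorem with real zeros -/
def ST_MAIN2 : Prop := ∀ (n : ℕ) (E : Finset (Finset (Fin n))) (b : ℕ → ℕ),
  (∀ e ∈ E, e.Nonempty) →
  (∀ m : ℕ, b m = Set.ncard {P : Finset (Finset (Fin n)) |
    P.card = m ∧
    (∀ B ∈ P, B.Nonempty) ∧
    (∀ B ∈ P, ∀ C ∈ P, B ≠ C → Disjoint B C) ∧
    (∀ v : Fin n, ∃ B ∈ P, v ∈ B) ∧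
    (∀ B ∈ P, ∀ e ∈ E, ¬ e ⊆ B)}) →
  BuiltR E univ →
  (∃ w : ℕ, (∃ K : Finset (Fin n), Clique E K ∧ K.card = w) ∧
    (∀ K : Finset (Fin n), Clique E K → K.card ≤ w) ∧ (∀ m, m < w → b m = 0) ∧
    ∀ i j : ℕ, i ≤ j → (i.factorial * b (w + i)) * ((j + 2).factorial * b (w + (j + 2))) ≤
      ((i + 1).factorial * b (w + (i + 1))) * ((j + 1).factorial * b (w + (j + 1)))) ∧
  ∃ k : ℕ,
    (∀ i j : ℕ, 1 ≤ i → i ≤ j → j ≤ k → b i ≤ b j) ∧
    (∀ i j : ℕ, k ≤ i → i ≤ j → j ≤ n → b j ≤ b i)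

theorem st_MAIN2 (hRR : ST_RR2) : ST_MAIN2 := fun n E b hE hb hB =>
  all_MAIN n E b hE hb (builtR_built E hRR univ hB)

end Pool.Agent.Helper5.LCU
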