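import Pool.Agent.Helper5.LCU.Stmts

set_option autoImplicit false

open Finset Pool.Agent.Helper89.UB

namespace Pool.Agent.Helper5.LCU

theorem st_MUL : ST_MUL := by
  intro a b ha hb
  refine ⟨fun i => mul_nonneg (ha.1 i) (hb.1 i), fun i j hij => ?_⟩
  have h1 := ha.2 i j hij
  have h2 := hb.2 i j hij
  calc a i * b i * (a (j + 2) * b (j + 2)) = (a i * a (j + 2)) * (b i * b (j + 2)) := by ring
    _ ≤ (a (i + 1) * a (j + 1)) * (b (i + 1) * b (j + 1)) :=
        mul_le_mul h1 h2 (mul_nonneg (hb.1 _) (hb.1 _)) (mul_nonneg (ha.1 _) (ha.1 _))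
    _ = a (i + 1) * b (i + 1) * (a (j + 1) * b (j + 1)) := by ring

theorem st_GSW : ST_GSW := by
  intro a b n
  induction n with
  | zero => intro p q; simp only [GA]; ring
  | succ n ih => intro p q; simp only [GA]; rw [ih, ih, ih]; ring

theorem st_PR (hPLC : ST_PLC) (hPNZ : ST_PNZ) (hLCZ : ST_LCZ) (hGP : ST_GP) : ST_PR := by
  intro a b ha hb
  exact hLCZ _ (fun m => (hGP a b ha.1 hb.1 m 0 0).1) (hPLC a b ha hb) (hPNZ a b ha hb)

end Pool.Agent.Helper5.LCU
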