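import Pool.Agent.Helper5.LCU.Defs

set_option autoImplicit false

open Finset Pool.Agent.Helper89.UB

namespace Pool.Agent.Helper5.LCU

/-! ### sequences -/

/-- 2x2 Cauchy-Binet with signs -/
def ST_CB : Prop := ∀ (N : ℕ) (u v p q : ℕ → ℝ),
  (∀ s t, s < t → t < N → 0 ≤ u s * v t - u t * v s) →
  (∀ s t, s < t → t < N → 0 ≤ p s * q t - p t * q s) →
  (∑ s ∈ range N, u s * q s) * (∑ s ∈ range N, v s * p s) ≤
    (∑ s ∈ range N, u s * p s) * (∑ s ∈ range N, v s * q s)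

/-- no internal zeros -/
def ST_NIZ : Prop := ∀ a : ℕ → ℝ, SLC a → ∀ x y z, x ≤ y → y ≤ z → 0 < a x → 0 < a z → 0 < a y

/-- log-concave without internal zeros is `SLC` -/
def ST_LCZ : Prop := ∀ c : ℕ → ℝ, (∀ m, 0 ≤ c m) → (∀ m, c m * c (m + 2) ≤ c (m + 1) ^ 2) →
  (∀ x y z, x < y → y < z → 0 < c x → 0 < c z → 0 < c y) → SLC c

/-- majorisation -/
def ST_MAJ : Prop := ∀ a : ℕ → ℝ, SLC a → ∀ x y u v, x + y = u + v → x ≤ u → x ≤ v →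
  a x * a y ≤ a u * a v

def ST_MUL : Prop := ∀ a b : ℕ → ℝ, SLC a → SLC b → SLC (fun i => a i * b i)

def ST_CHS : Prop := ∀ n : ℕ, SLC (fun i => (n.choose i : ℝ))

/-- reversal -/
def ST_REV : Prop := ∀ b : ℕ → ℝ, SLC b → ∀ N : ℕ, SLC (fun r => if r ≤ N then b (N - r) else 0)

/-- correlation -/
def ST_COR : Prop := ∀ s a : ℕ → ℝ, SLC s → SLC a → ∀ N : ℕ,
  SLC (fun p => ∑ i ∈ range N, s i * a (p + i))

/-- convolution -/
def ST_CNV : Prop := ∀ a b : ℕ → ℝ, SLC a → SLC b →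
  SLC (fun m => ∑ i ∈ range (m + 1), a i * b (m - i))

/-- binomial convolution -/
def ST_BC : Prop := ∀ a b : ℕ → ℝ, SLC a → SLC b → SLC (BC a b)

/-- multiplication by a falling factorial and shift -/
def ST_LOW : Prop := ∀ g : ℕ → ℝ, SLC g → ∀ t : ℕ,
  SLC (fun j => if j < t then 0 else (j.descFactorial t : ℝ) * g (j - t))

/-- closed form of the arrays -/
def ST_GF : Prop := ∀ (a b : ℕ → ℝ) (n p q : ℕ),
  GA a b n p q = ∑ i ∈ range (n + 1), (n.choose i : ℝ) *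
    (∑ r ∈ range (i + 1), (i.choose r : ℝ) * b (q + n - r)) * a (p + i)

def ST_GSW : Prop := ∀ (a b : ℕ → ℝ) (n p q : ℕ), GA a b n p q = GA b a n q p

def ST_K1 : Prop := ∀ a b : ℕ → ℝ, SLC a → SLC b → ∀ n q : ℕ, SLC (fun p => GA a b n p q)

/-- the inner sums of the closed form have the sign rule in the shift of `b` -/
def ST_K2 : Prop := ∀ b : ℕ → ℝ, SLC b → ∀ n q i j : ℕ, i < j → j ≤ n →
  (∑ r ∈ range (j + 1), (j.choose r : ℝ) * b (q + n - r)) *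
    (∑ r ∈ range (i + 1), (i.choose r : ℝ) * b (q + 1 + n - r)) ≤
  (∑ r ∈ range (i + 1), (i.choose r : ℝ) * b (q + n - r)) *
    (∑ r ∈ range (j + 1), (j.choose r : ℝ) * b (q + 1 + n - r))

def ST_K3 : Prop := ∀ a b : ℕ → ℝ, SLC a → SLC b → ∀ n p q : ℕ,
  GA a b n p q * GA a b n (p + 1) (q + 1) ≤ GA a b n (p + 1) q * GA a b n p (q + 1)

/-- support of the arrays -/
def ST_GP : Prop := ∀ a b : ℕ → ℝ, (∀ i, 0 ≤ a i) → (∀ i, 0 ≤ b i) → ∀ n p q : ℕ,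
  0 ≤ GA a b n p q ∧ (0 < GA a b n p q ↔
    ∃ i k : ℕ, i ≤ n ∧ k ≤ n ∧ n ≤ i + k ∧ 0 < a (p + i) ∧ 0 < b (q + k))

def ST_SUP : Prop := ∀ a b : ℕ → ℝ, SLC a → SLC b → ∀ n p q p' q' : ℕ, p' ≤ p → q' ≤ q →
  0 < GA a b n 0 0 → 0 < GA a b n p q → 0 < GA a b n p' q'

def ST_PLC : Prop := ∀ a b : ℕ → ℝ, SLC a → SLC b → ∀ m : ℕ,
  GA a b m 0 0 * GA a b (m + 2) 0 0 ≤ (GA a b (m + 1) 0 0) ^ 2

def ST_PNZ : Prop := ∀ a b : ℕ → ℝ, SLC a → SLC b → ∀ x y z, x < y → y < z →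
  0 < GA a b x 0 0 → 0 < GA a b z 0 0 → 0 < GA a b y 0 0

/-- product lemma -/
def ST_PR : Prop := ∀ a b : ℕ → ℝ, SLC a → SLC b → SLC (fun m => GA a b m 0 0)

def ST_TPR : Prop := ∀ (a b : ℕ → ℝ) (q : ℕ), TT a q * TT b q = TT (fun m => GA a b m 0 0) q

def ST_TUN : Prop := ∀ x y : ℕ → ℝ, (∀ q, TT x q = TT y q) → x = y

def ST_TSH : Prop := ∀ (a : ℕ → ℝ) (q : ℕ), TT a (q + 1) = TT (fun i => a i + a (i + 1)) q

/-- change of level -/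
def ST_SH : Prop := ∀ (s : ℕ → ℝ) (r x : ℕ), (∀ m, m < r → s m = 0) →
  TT s (x + r) = ((x + r).descFactorial r : ℝ) *
    TT (fun j => (j.factorial : ℝ) * s (r + j) / ((r + j).factorial : ℝ)) x

/-! ### counting -/

/-- unordered against ordered partitions of `S` -/
def ST_LNS : Prop := ∀ (n : ℕ) (E : Finset (Finset (Fin n))) (S : Finset (Fin n)) (m : ℕ),
  pn E S m * m.factorial = sur E S m

/-- colourings in the basis of binomial coefficients -/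
def ST_TP : Prop := ∀ (n : ℕ) (E : Finset (Finset (Fin n))), Al E ∅ →
  ∀ (q : ℕ) (W : Finset (Fin n)),
    ((pw (fz E) q W : ℤ) : ℝ) = TT (fun m => (sur E W m : ℝ)) q

/-- join -/
def ST_JN : Prop := ∀ (n : ℕ) (E : Finset (Finset (Fin n))) (A B : Finset (Fin n)),
  Disjoint A B → (∀ a ∈ A, ∀ b ∈ B, ({a, b} : Finset (Fin n)) ∈ E) → ∀ m : ℕ,
    (sur E (A ∪ B) m : ℝ) = BC (fun i => (sur E A i : ℝ)) (fun i => (sur E B i : ℝ)) m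

/-- first vertex -/
def ST_VR : Prop := ∀ (n : ℕ) (f : Finset (Fin n) → ℤ) (q : ℕ) (W : Finset (Fin n)), ∀ v ∈ W,
  pw f (q + 1) W = (q + 1) * ∑ X ∈ (W.erase v).powerset, f (insert v X) * pw f q ((W.erase v) \ X)

/-- disjoint union -/
def ST_GL0 : Prop := ∀ (n : ℕ) (E : Finset (Finset (Fin n))) (A B : Finset (Fin n)),
  Disjoint A B → (∀ e ∈ E, e ⊆ A ∪ B → e ⊆ A ∨ e ⊆ B) → ∀ q : ℕ,
    pw (fz E) q (A ∪ B) = pw (fz E) q A * pw (fz E) q B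

/-- gluing along a clique -/
def ST_GL : Prop := ∀ (n : ℕ) (E : Finset (Finset (Fin n))) (A B : Finset (Fin n)),
  Clique E (A ∩ B) → (∀ e ∈ E, e ⊆ A ∪ B → e ⊆ A ∨ e ⊆ B) → ∀ q : ℕ,
    pw (fz E) q (A ∪ B) * (q.descFactorial (A ∩ B).card : ℤ) = pw (fz E) q A * pw (fz E) q B

/-- fewer blocks than a clique -/
def ST_ZB : Prop := ∀ (n : ℕ) (E : Finset (Finset (Fin n))) (S K : Finset (Fin n)),
  K ⊆ S → Clique E K → ∀ m, m < K.card → sur E S m = 0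

/-- complete uniform hypergraphs: counting -/
def ST_UF1 : Prop := ∀ (n : ℕ) (E : Finset (Finset (Fin n))) (S : Finset (Fin n)) (r : ℕ),
  (∀ X ⊆ S, (∃ e ∈ E, e ⊆ X) ↔ r ≤ X.card) → ∀ (m : ℕ), ∀ W ⊆ S,
    (sur E W m : ℝ) = (W.card.factorial : ℝ) * ((FR r) ^ m).coeff W.card

/-- coefficient sequences of a product -/
def ST_UFC : Prop := ∀ r j : ℕ, 3 ≤ r →
  SLC (fun x => (Polynomial.derivative (FR r) * (FR r) ^ j).coeff x)

/-- log-concavity in the exponent -/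
def ST_UF2 : Prop := ∀ r x : ℕ, 3 ≤ r →
  SLC (fun j => (Polynomial.derivative (FR r) * (FR r) ^ j).coeff x)

/-- derivative identity -/
def ST_UF3 : Prop := ∀ r m x : ℕ,
  ((x : ℝ) + 1) * ((FR r) ^ (m + 1)).coeff (x + 1) =
    ((m : ℝ) + 1) * (Polynomial.derivative (FR r) * (FR r) ^ m).coeff x

/-- `Good` in terms of `sq` -/
def ST_GD : Prop := ∀ (n : ℕ) (E : Finset (Finset (Fin n))) (S : Finset (Fin n)),
  Good E S ↔ ∃ w : ℕ, (∃ K ⊆ S, Clique E K ∧ K.card = w) ∧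
    (∀ K ⊆ S, Clique E K → K.card ≤ w) ∧ SLC (sq E S w)

def ST_MU : Prop := ∀ (n : ℕ) (E : Finset (Finset (Fin n))) (S : Finset (Fin n)) (r : ℕ),
  S.Nonempty → 3 ≤ r → (∀ X ⊆ S, (∃ e ∈ E, e ⊆ X) ↔ r ≤ X.card) → Good E S

def ST_MJ : Prop := ∀ (n : ℕ) (E : Finset (Finset (Fin n))) (A B : Finset (Fin n)),
  Disjoint A B → (∀ a ∈ A, ∀ b ∈ B, ({a, b} : Finset (Fin n)) ∈ E) →
    Good E A → Good E B → Good E (A ∪ B)

/-- product formula at the higher level -/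
def ST_MG1 : Prop := ∀ (n : ℕ) (E : Finset (Finset (Fin n))) (A B : Finset (Fin n)) (r t w : ℕ),
  Al E ∅ → Clique E (A ∩ B) → (∀ e ∈ E, e ⊆ A ∪ B → e ⊆ A ∨ e ⊆ B) → (A ∩ B).card = r →
  r ≤ t → t ≤ w → (∀ m, m < t → sur E A m = 0) → (∀ m, m < w → sur E B m = 0) →
  (∀ m, m < w → sur E (A ∪ B) m = 0) → SLC (sq E A t) → SLC (sq E B w) →
    SLC (sq E (A ∪ B) w)

def ST_MG : Prop := ∀ (n : ℕ) (E : Finset (Finset (Fin n))) (A B : Finset (Fin n)),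
  Al E ∅ → Clique E (A ∩ B) → (∀ e ∈ E, e ⊆ A ∪ B → e ⊆ A ∨ e ⊆ B) →
    Good E A → Good E B → Good E (A ∪ B)

/-- unimodality of good hypergraphs -/
def ST_FIN : Prop := ∀ (n : ℕ) (E : Finset (Finset (Fin n))), Good E univ →
  ∃ k : ℕ,
    (∀ i j : ℕ, 1 ≤ i → i ≤ j → j ≤ k → pn E univ i ≤ pn E univ j) ∧
    (∀ i j : ℕ, k ≤ i → i ≤ j → j ≤ n → pn E univ j ≤ pn E univ i)

/-- main theorem -/
def ST_MAIN : Prop := ∀ (n : ℕ) (E : Finset (Finset (Fin n))) (b : ℕ → ℕ),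
  (∀ e ∈ E, e.Nonempty) →
  (∀ m : ℕ, b m = Set.ncard {P : Finset (Finset (Fin n)) |
    P.card = m ∧
    (∀ B ∈ P, B.Nonempty) ∧
    (∀ B ∈ P, ∀ C ∈ P, B ≠ C → Disjoint B C) ∧
    (∀ v : Fin n, ∃ B ∈ P, v ∈ B) ∧
    (∀ B ∈ P, ∀ e ∈ E, ¬ e ⊆ B)}) →
  Built E univ →
  (∃ w : ℕ, (∃ K : Finset (Fin n), Clique E K ∧ K.card = w) ∧
    (∀ K : Finset (Fin n), Clique E K → K.card ≤ w) ∧ (∀ m, m < w → b m = 0) ∧
    ∀ i j : ℕ, i ≤ j → (i.factorial * b (w + i)) * ((j + 2).factorial * b (w + (j + 2))) ≤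
      ((i + 1).factorial * b (w + (i + 1))) * ((j + 1).factorial * b (w + (j + 1)))) ∧
  ∃ k : ℕ,
    (∀ i j : ℕ, 1 ≤ i → i ≤ j → j ≤ k → b i ≤ b j) ∧
    (∀ i j : ℕ, k ≤ i → i ≤ j → j ≤ n → b j ≤ b i)

end Pool.Agent.Helper5.LCU
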